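import Mathlib

set_option autoImplicit false

open Set Filter Topology Metric MeasureTheory
open scoped ENNReal ContDiff

namespace Pool.Agent.Results.MP_e5a79a_an.Pendulum

/-- The torus R^n / Z^n. -/
abbrev Torus (n : ℕ) : Type := UnitAddTorus (Fin n)

/-- R^n: the universal cover of the torus, and the space of momenta and velocities. -/
abbrev Vec (n : ℕ) : Type := EuclideanSpace ℝ (Fin n)

/-- The covering map from R^n onto the torus. -/
def proj {n : ℕ} (x : Vec n) : Torus n := fun i => ((x i : ℝ) : UnitAddCircle)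

/-- The shifted Hamiltonian H_c(x,p) = H(x,p-c). -/
def shift {n : ℕ} (H : Torus n → Vec n → ℝ) (c : Vec n) : Torus n → Vec n → ℝ :=
  fun x p => H x (p - c)

/-- Tonelli Hamiltonians: smooth in (x,p), with positive definite second derivative in p, and
superlinear in p uniformly in x. -/
def IsTonelli {n : ℕ} (H : Torus n → Vec n → ℝ) : Prop :=
  ContDiff ℝ ∞ (fun q : Vec n × Vec n => H (proj q.1) q.2) ∧
  (∀ (x : Torus n) (p v : Vec n), v ≠ 0 → 0 < fderiv ℝ (fderiv ℝ (H x)) p v v) ∧
  ∀ A : ℝ, ∃ R : ℝ, ∀ (x : Torus n) (p : Vec n), R ≤ ‖p‖ → A * ‖p‖ ≤ H x p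

/-- Continuous viscosity subsolutions of G(x,Dv(x)) = a on the torus. -/
def IsSubsolution {n : ℕ} (G : Torus n → Vec n → ℝ) (a : ℝ) (v : Torus n → ℝ) : Prop :=
  Continuous v ∧ ∀ (x : Vec n) (φ : Vec n → ℝ), ContDiffAt ℝ 1 φ x →
    IsLocalMax (fun y => v (proj y) - φ y) x → G (proj x) (gradient φ x) ≤ a

/-- Continuous viscosity supersolutions of G(x,Dv(x)) = a on the torus. -/
def IsSupersolution {n : ℕ} (G : Torus n → Vec n → ℝ) (a : ℝ) (v : Torus n → ℝ) : Prop :=
  Continuous v ∧ ∀ (x : Vec n) (φ : Vec n → ℝ), ContDiffAt ℝ 1 φ x →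
    IsLocalMin (fun y => v (proj y) - φ y) x → a ≤ G (proj x) (gradient φ x)

/-- Viscosity solutions of G(x,Dv(x)) = a on the torus. -/
def IsSolution {n : ℕ} (G : Torus n → Vec n → ℝ) (a : ℝ) (v : Torus n → ℝ) : Prop :=
  IsSubsolution G a v ∧ IsSupersolution G a v

/-- k is the critical value of G: the unique constant for which there is a viscosity solution. -/
def IsCriticalValue {n : ℕ} (G : Torus n → Vec n → ℝ) (k : ℝ) : Prop :=
  ∀ a : ℝ, (∃ v, IsSolution G a v) ↔ a = k

/-- The Lagrangian, Legendre dual of G. -/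
noncomputable def legendre {n : ℕ} (G : Torus n → Vec n → ℝ) (x : Torus n) (v : Vec n) : ℝ :=
  ⨆ p : Vec n, (inner ℝ p v - G x p)

/-- Absolutely continuous curves of finite action joining x to y in time t (given by a lift). -/
def IsCurve {n : ℕ} (G : Torus n → Vec n → ℝ) (t : ℝ) (x y : Torus n) (γ : ℝ → Vec n) : Prop :=
  AbsolutelyContinuousOnInterval γ 0 t ∧ proj (γ 0) = x ∧ proj (γ t) = y ∧
    IntervalIntegrable (fun s => legendre G (proj (γ s)) (deriv γ s)) volume 0 t

/-- The minimal action with constant k between x and y in time t. -/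
noncomputable def minAction {n : ℕ} (G : Torus n → Vec n → ℝ) (k : ℝ) (x y : Torus n) (t : ℝ) :
    EReal :=
  ⨅ (γ : ℝ → Vec n) (_ : IsCurve G t x y γ),
    ((∫ s in (0 : ℝ)..t, (legendre G (proj (γ s)) (deriv γ s) + k) : ℝ) : EReal)

/-- The Peierls barrier. -/
noncomputable def peierls {n : ℕ} (G : Torus n → Vec n → ℝ) (k : ℝ) (x y : Torus n) : EReal :=
  liminf (fun t : ℝ => minAction G k x y t) atTop

/-- The projected Aubry set. -/
def aubry {n : ℕ} (G : Torus n → Vec n → ℝ) (k : ℝ) : Set (Torus n) :=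
  {x | peierls G k x x = 0}

/-- The flat distance on the torus. -/
noncomputable def torusDist {n : ℕ} (x y : Torus n) : ℝ :=
  sInf {r : ℝ | ∃ a b : Vec n, proj a = x ∧ proj b = y ∧ r = ‖a - b‖}

/-- The norm sup_K |F| + sup over x ≠ y in K of |F(x)-F(y)|/d(x,y), for a map F on the torus given by
its periodic lift. -/
noncomputable def lipNorm {n : ℕ} (K : Set (Torus n)) (F : Vec n → Vec n) : ℝ≥0∞ :=
  (⨆ (x : Vec n) (_ : proj x ∈ K), ENNReal.ofReal ‖F x‖) +
  ⨆ (x : Vec n) (y : Vec n) (_ : proj x ∈ K) (_ : proj y ∈ K) (_ : proj x ≠ proj y),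
    ENNReal.ofReal (‖F x - F y‖ / torusDist (proj x) (proj y))

/-- The differential of a function on the torus, as a map on the cover. -/
noncomputable def D {n : ℕ} (v : Torus n → ℝ) (x : Vec n) : Vec n :=
  gradient (fun y => v (proj y)) x

/-! ### One-variable preliminaries -/

/-- the speed of the pendulum orbit of energy m^2/2 -/
noncomputable def R (m t : ℝ) : ℝ := Real.sqrt (Real.sin (Real.pi * t) ^ 2 + m ^ 2)

theorem R_continuous (m : ℝ) : Continuous (R m) := by unfold R; fun_prop

theorem R_nonneg (m t : ℝ) : 0 ≤ R m t := Real.sqrt_nonneg _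

theorem R_sq (m t : ℝ) : R m t ^ 2 = Real.sin (Real.pi * t) ^ 2 + m ^ 2 := by
  unfold R; exact Real.sq_sqrt (by positivity)

theorem R_pos {m : ℝ} (hm : 0 < m) (t : ℝ) : 0 < R m t := by
  unfold R; apply Real.sqrt_pos.2; positivity

theorem R_le (m : ℝ) (hm : 0 ≤ m) (t : ℝ) : R m t ≤ 1 + m := by
  unfold R
  apply Real.sqrt_le_iff.2 ⟨by linarith, ?_⟩
  nlinarith [Real.sin_sq_le_one (Real.pi * t)]

theorem R_mono {m m' : ℝ} (hm : 0 ≤ m) (h : m ≤ m') (t : ℝ) : R m t ≤ R m' t := by
  unfold R; apply Real.sqrt_le_sqrt; nlinarith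

theorem R_lip {m m' : ℝ} (hm : 0 ≤ m) (h : m ≤ m') (t : ℝ) : R m' t ≤ R m t + (m' - m) := by
  have h0 : m ≤ R m t := by
    unfold R; apply Real.le_sqrt_of_sq_le; nlinarith [sq_nonneg (Real.sin (Real.pi * t))]
  have h1 := R_sq m t
  have h2 : R m' t ^ 2 ≤ (R m t + (m' - m)) ^ 2 := by
    rw [R_sq m' t]; nlinarith
  exact le_of_sq_le_sq h2 (by have := R_nonneg m t; linarith)

theorem R_periodic (m t : ℝ) : R m (t + 1) = R m t := by
  unfold R
  have : Real.pi * (t + 1) = Real.pi * t + Real.pi := by ring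
  rw [this, Real.sin_add_pi]; simp

/-- mean speed -/
noncomputable def M (m : ℝ) : ℝ := ∫ s in (0 : ℝ)..1, R m s

theorem M_mono {m m' : ℝ} (hm : 0 ≤ m) (h : m ≤ m') : M m ≤ M m' := by
  unfold M
  apply intervalIntegral.integral_mono_on zero_le_one ((R_continuous m).intervalIntegrable _ _)
    ((R_continuous m').intervalIntegrable _ _)
  intro t _; exact R_mono hm h t

theorem M_lip {m m' : ℝ} (hm : 0 ≤ m) (h : m ≤ m') : M m' ≤ M m + (m' - m) := by
  unfold M
  have h1 : (∫ s in (0 : ℝ)..1, R m' s) ≤ ∫ s in (0 : ℝ)..1, (R m s + (m' - m)) := by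
    apply intervalIntegral.integral_mono_on zero_le_one ((R_continuous m').intervalIntegrable _ _)
      (((R_continuous m).add continuous_const).intervalIntegrable _ _)
    intro t _; exact R_lip hm h t
  rw [intervalIntegral.integral_add ((R_continuous m).intervalIntegrable _ _) (by simp),
    intervalIntegral.integral_const] at h1
  simpa using h1

/-- primitive of R m -/
noncomputable def P (m t : ℝ) : ℝ := ∫ s in (0 : ℝ)..t, R m s

theorem P_hasDerivAt (m t : ℝ) : HasDerivAt (P m) (R m t) t := by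
  unfold P
  exact intervalIntegral.integral_hasDerivAt_right ((R_continuous m).intervalIntegrable _ _)
    ((R_continuous m).stronglyMeasurableAtFilter _ _) (R_continuous m).continuousAt

theorem P_add_one (m t : ℝ) : P m (t + 1) = P m t + M m := by
  unfold P M
  have h1 : (∫ s in t..(t + 1), R m s) = ∫ s in (0 : ℝ)..(0 + 1), R m s :=
    Function.Periodic.intervalIntegral_add_eq (R_periodic m) t 0
  rw [zero_add] at h1
  rw [← h1, intervalIntegral.integral_add_adjacent_intervals
    ((R_continuous m).intervalIntegrable _ _) ((R_continuous m).intervalIntegrable _ _)]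

/-- the one-variable solution -/
noncomputable def V (m t : ℝ) : ℝ := P m t - M m * t

theorem V_hasDerivAt (m t : ℝ) : HasDerivAt (V m) (R m t - M m) t := by
  unfold V
  have := (P_hasDerivAt m t).fun_sub ((hasDerivAt_id t).const_mul (M m))
  simpa using this

theorem V_periodic (m : ℝ) : Function.Periodic (V m) 1 := by
  intro t
  unfold V; rw [P_add_one]; ring

theorem V_continuous (m : ℝ) : Continuous (V m) :=
  continuous_iff_continuousAt.2 fun t => (V_hasDerivAt m t).continuousAt

theorem V_contDiff (m : ℝ) : ContDiff ℝ 1 (V m) := by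
  rw [contDiff_one_iff_deriv]
  refine ⟨fun t => (V_hasDerivAt m t).differentiableAt, ?_⟩
  have : deriv (V m) = fun t => R m t - M m := funext fun t => (V_hasDerivAt m t).deriv
  rw [this]; exact (R_continuous m).sub continuous_const

/-- the same on the circle -/
noncomputable def Vc (m : ℝ) : UnitAddCircle → ℝ := (V_periodic m).lift

theorem Vc_coe (m t : ℝ) : Vc m (t : UnitAddCircle) = V m t := rfl

theorem Vc_continuous (m : ℝ) : Continuous (Vc m) :=
  continuous_coinduced_dom.mpr (V_continuous m)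

/-- sin^2 (π z) on the circle -/
noncomputable def sn (z : UnitAddCircle) : ℝ := (1 - (AddCircle.toCircle z : ℂ).re) / 2

theorem sn_coe (t : ℝ) : sn (t : UnitAddCircle) = Real.sin (Real.pi * t) ^ 2 := by
  unfold sn
  rw [AddCircle.toCircle_apply_mk, Circle.coe_exp, Complex.exp_ofReal_mul_I_re]
  have : 2 * Real.pi / 1 * t = 2 * (Real.pi * t) := by ring
  rw [this, Real.cos_two_mul, Real.cos_sq']; ring

theorem sn_nonneg (z : UnitAddCircle) : 0 ≤ sn z := by
  induction z using QuotientAddGroup.induction_on with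
  | H t =>
    have h1 := sn_coe t
    have : 0 ≤ sn (t : UnitAddCircle) := by rw [h1]; positivity
    exact this

theorem sn_le_one (z : UnitAddCircle) : sn z ≤ 1 := by
  induction z using QuotientAddGroup.induction_on with
  | H t =>
    have h1 := sn_coe t
    have : sn (t : UnitAddCircle) ≤ 1 := by rw [h1]; exact Real.sin_sq_le_one _
    exact this

/-- unit vector -/
noncomputable def e {n : ℕ} (i : Fin n) : Vec n := EuclideanSpace.single i 1

theorem norm_e {n : ℕ} (i : Fin n) : ‖e i‖ = 1 := by simp [e]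

theorem inner_e {n : ℕ} (i : Fin n) (v : Vec n) : inner ℝ (e i) v = v i := by
  simp [e, EuclideanSpace.inner_single_left]

/-- the Hamiltonians at the parameter m -/
noncomputable def G {n : ℕ} (i : Fin n) (m : ℝ) (z : Torus n) (p : Vec n) : ℝ :=
  (1 / 2) * ‖p + M m • e i‖ ^ 2 - (1 / 2) * sn (z i)

/-- the cohomology classes -/
noncomputable def cls {n : ℕ} (i : Fin n) (m : ℝ) : Vec n := (M 0 - M m) • e i

theorem shift_G {n : ℕ} (i : Fin n) (m : ℝ) : shift (G i 0) (cls i m) = G i m := by
  funext x p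
  unfold shift G cls
  congr 3
  congr 1
  rw [sub_smul]; abel

theorem proj_continuous {n : ℕ} : Continuous (proj (n := n)) := by
  unfold proj
  apply continuous_pi
  intro i
  exact (AddCircle.continuous_mk' 1).comp (by fun_prop)

theorem proj_surjective {n : ℕ} (z : Torus n) : ∃ x : Vec n, proj x = z := by
  have h : ∀ i, ∃ t : ℝ, (t : UnitAddCircle) = z i := fun i => by
    obtain ⟨t, ht⟩ := QuotientAddGroup.mk_surjective (z i)
    exact ⟨t, ht⟩
  choose t ht using h
  exact ⟨WithLp.toLp 2 t, funext fun i => by simp [proj, ht]⟩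

/-! ### Monotonicity from viscosity inequalities -/

section mono

variable {E : Type*} [NormedAddCommGroup E] [InnerProductSpace ℝ E] [FiniteDimensional ℝ E]

theorem mono_of_visc (w : ℝ × E → ℝ) (A t1 t2 R : ℝ) (x0 : E) (h12 : t1 < t2) (hR : 0 < R)
    (hw : ContinuousOn w (Icc t1 t2 ×ˢ closedBall x0 R))
    (hvisc : ∀ t ∈ Ioo t1 t2, ∀ x ∈ ball x0 R, ∀ φ : ℝ × E → ℝ, ContDiff ℝ 2 φ →
      IsLocalMax (fun q => w q - φ q) (t, x) → - deriv (fun s => φ (s, x)) t ≤ A) :
    w (t1, x0) ≤ w (t2, x0) + A * (t2 - t1) := by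
  by_contra hcon
  push Not at hcon
  -- the adjusted function
  set W : ℝ × E → ℝ := fun q => w q + A * q.1 with hW
  set δ : ℝ := W (t1, x0) - W (t2, x0) with hδ
  have hδpos : 0 < δ := by
    simp only [hδ, hW]; nlinarith
  have hWc : ContinuousOn W (Icc t1 t2 ×ˢ closedBall x0 R) := by
    apply hw.add
    exact (continuous_const.mul continuous_fst).continuousOn
  have hm1 : (t1, x0) ∈ Icc t1 t2 ×ˢ closedBall x0 R := ⟨⟨le_refl _, h12.le⟩, mem_closedBall_self hR.le⟩
  have hm2 : (t2, x0) ∈ Icc t1 t2 ×ˢ closedBall x0 R := ⟨⟨h12.le, le_refl _⟩, mem_closedBall_self hR.le⟩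
  have hc1 := Metric.continuousWithinAt_iff.1 (hWc (t1, x0) hm1) (δ / 16) (by positivity)
  have hc2 := Metric.continuousWithinAt_iff.1 (hWc (t2, x0) hm2) (δ / 16) (by positivity)
  obtain ⟨d1, hd1, hc1⟩ := hc1
  obtain ⟨d2, hd2, hc2⟩ := hc2
  set r : ℝ := min R (min (d1 / 2) (d2 / 2)) with hr
  have hrpos : 0 < r := by positivity
  have hrR : r ≤ R := min_le_left _ _
  have hr1 : r < d1 := lt_of_le_of_lt ((min_le_right _ _).trans (min_le_left _ _)) (by linarith)
  have hr2 : r < d2 := lt_of_le_of_lt ((min_le_right _ _).trans (min_le_right _ _)) (by linarith)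
  set s : ℝ := min ((t2 - t1) / 2) (d1 / 2) with hs
  have hspos : 0 < s := by
    have : 0 < t2 - t1 := by linarith
    positivity
  have hs1 : s < t2 - t1 := lt_of_le_of_lt (min_le_left _ _) (by linarith)
  have hs2 : s < d1 := lt_of_le_of_lt (min_le_right _ _) (by linarith)
  set t3 : ℝ := t1 + s with ht3
  -- estimates
  have e1 : ∀ x ∈ closedBall x0 r, W (t1, x) < W (t1, x0) + δ / 16 := by
    intro x hx
    have hx' : dist x x0 ≤ r := hx
    have := @hc1 (t1, x) ⟨⟨le_refl _, h12.le⟩, closedBall_subset_closedBall hrR hx⟩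
      (by rw [Prod.dist_eq]; simp only [dist_self]; exact max_lt hd1 (lt_of_le_of_lt hx' hr1))
    rw [Real.dist_eq, abs_lt] at this
    linarith [this.2]
  have e2 : ∀ x ∈ closedBall x0 r, W (t2, x) < W (t2, x0) + δ / 16 := by
    intro x hx
    have hx' : dist x x0 ≤ r := hx
    have := @hc2 (t2, x) ⟨⟨h12.le, le_refl _⟩, closedBall_subset_closedBall hrR hx⟩
      (by rw [Prod.dist_eq]; simp only [dist_self]; exact max_lt hd2 (lt_of_le_of_lt hx' hr2))
    rw [Real.dist_eq, abs_lt] at this
    linarith [this.2]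
  have e3 : W (t1, x0) - δ / 16 < W (t3, x0) := by
    have := @hc1 (t3, x0) ⟨⟨by linarith, by linarith⟩, mem_closedBall_self hR.le⟩
      (by
        rw [Prod.dist_eq]; simp only [dist_self, Real.dist_eq]
        refine max_lt ?_ hd1
        rw [ht3, add_sub_cancel_left, abs_of_pos hspos]; exact hs2)
    rw [Real.dist_eq, abs_lt] at this
    linarith [this.1]
  -- bound of W on the compact set
  have hK : IsCompact (Icc t1 t2 ×ˢ closedBall x0 r) := isCompact_Icc.prod (isCompact_closedBall x0 r)
  have hsub : Icc t1 t2 ×ˢ closedBall x0 r ⊆ Icc t1 t2 ×ˢ closedBall x0 R :=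
    prod_mono le_rfl (closedBall_subset_closedBall hrR)
  obtain ⟨B, hB⟩ := hK.bddAbove_image (hWc.mono hsub)
  have hB' : ∀ q ∈ Icc t1 t2 ×ˢ closedBall x0 r, W q ≤ B := fun q hq => hB (mem_image_of_mem _ hq)
  set N : ℝ := 1 / s with hN
  have hNpos : 0 < N := by positivity
  set M : ℝ := (|B - W (t1, x0)| + δ) / r ^ 2 with hM
  set P : ℝ → ℝ := fun t => - (δ / 2) * Real.exp (-N * (t - t1)) with hP
  set Ψ : ℝ × E → ℝ := fun q => W q + P q.1 - M * ‖q.2 - x0‖ ^ 2 with hΨ
  set φ : ℝ × E → ℝ := fun q => - A * q.1 - P q.1 + M * ‖q.2 - x0‖ ^ 2 with hφ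
  have hΨφ : ∀ q, w q - φ q = Ψ q := by
    intro q; simp only [hΨ, hφ, hW]; ring
  have hΨc : ContinuousOn Ψ (Icc t1 t2 ×ˢ closedBall x0 r) := by
    have h1 : Continuous (fun q : ℝ × E => P q.1 - M * ‖q.2 - x0‖ ^ 2) := by
      simp only [hP]; fun_prop
    have h2 := (hWc.mono hsub).add h1.continuousOn
    refine h2.congr ?_
    intro q _; simp only [hΨ, Pi.add_apply]; ring
  have hne : (Icc t1 t2 ×ˢ closedBall x0 r).Nonempty :=
    ⟨(t1, x0), ⟨⟨le_refl _, h12.le⟩, mem_closedBall_self hrpos.le⟩⟩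
  obtain ⟨m, hmK, hmax⟩ := hK.exists_isMaxOn hne hΨc
  have hmax' : ∀ q ∈ Icc t1 t2 ×ˢ closedBall x0 r, Ψ q ≤ Ψ m := fun q hq => hmax hq
  -- lower bound at (t3, x0)
  have hexp : Real.exp (-1) < 1 / 2 := by
    have := Real.exp_one_gt_d9
    rw [Real.exp_neg, inv_lt_comm₀ (Real.exp_pos _) (by norm_num)]
    linarith
  have hP3 : -(δ / 4) < P t3 := by
    have h1 : -N * (t3 - t1) = -1 := by
      rw [ht3, hN]; field_simp; ring
    simp only [hP, h1]
    nlinarith
  have hΨ3 : W (t1, x0) - δ / 16 - δ / 4 < Ψ (t3, x0) := by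
    simp only [hΨ, sub_self, norm_zero]
    nlinarith
  have hmem3 : (t3, x0) ∈ Icc t1 t2 ×ˢ closedBall x0 r :=
    ⟨⟨by linarith, by linarith⟩, mem_closedBall_self hrpos.le⟩
  have hge := hmax' _ hmem3
  have hMnn : 0 ≤ M := by positivity
  have hPneg : ∀ t, P t ≤ 0 := by
    intro t; simp only [hP]
    have := Real.exp_pos (-N * (t - t1)); nlinarith
  obtain ⟨mt, mx⟩ := m
  have hmt : mt ∈ Icc t1 t2 := hmK.1
  have hmx : mx ∈ closedBall x0 r := hmK.2
  -- not at t1
  have hnt1 : mt ≠ t1 := by
    intro h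
    rw [h] at hge hmax'
    have h1 := e1 mx hmx
    have h2 : P t1 = -(δ / 2) := by simp [hP]
    have h3 : Ψ (t1, mx) ≤ W (t1, mx) + P t1 := by
      simp only [hΨ]
      have : 0 ≤ M * ‖mx - x0‖ ^ 2 := by positivity
      linarith
    linarith
  have hnt2 : mt ≠ t2 := by
    intro h
    rw [h] at hge hmax'
    have h1 := e2 mx hmx
    have h3 : Ψ (t2, mx) ≤ W (t2, mx) + P t2 := by
      simp only [hΨ]
      have : 0 ≤ M * ‖mx - x0‖ ^ 2 := by positivity
      linarith
    have := hPneg t2
    have h5 : W (t2, x0) = W (t1, x0) - δ := by simp only [hδ]; ring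
    linarith
  have hnr : dist mx x0 < r := by
    rcases lt_or_eq_of_le (show dist mx x0 ≤ r from hmx) with h | h
    · exact h
    · exfalso
      have h1 := hB' _ hmK
      have h3 : Ψ (mt, mx) = W (mt, mx) + P mt - M * r ^ 2 := by
        simp only [hΨ]; rw [← dist_eq_norm, h]
      have h4 : M * r ^ 2 = |B - W (t1, x0)| + δ := by
        rw [hM]; field_simp
      have h5 := le_abs_self (B - W (t1, x0))
      have := hPneg mt
      linarith
  have hmt' : mt ∈ Ioo t1 t2 := ⟨lt_of_le_of_ne hmt.1 (Ne.symm hnt1), lt_of_le_of_ne hmt.2 hnt2⟩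
  have hnhds : Icc t1 t2 ×ˢ closedBall x0 r ∈ 𝓝 (mt, mx) :=
    prod_mem_nhds (Icc_mem_nhds hmt'.1 hmt'.2)
      (mem_of_superset (isOpen_ball.mem_nhds hnr) ball_subset_closedBall)
  have hloc : IsLocalMax (fun q => w q - φ q) (mt, mx) := by
    filter_upwards [hnhds] with q hq
    rw [hΨφ, hΨφ]; exact hmax' q hq
  have hsmooth : ContDiff ℝ 2 φ := by
    have h1 : ContDiff ℝ 2 (fun q : ℝ × E => ‖q.2 - x0‖ ^ 2) :=
      (contDiff_snd.sub contDiff_const).norm_sq ℝ
    have h2 : ContDiff ℝ 2 (fun q : ℝ × E => P q.1) := by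
      simp only [hP]
      exact contDiff_const.mul (Real.contDiff_exp.comp
        (contDiff_const.mul (contDiff_fst.sub contDiff_const)))
    have h3 : ContDiff ℝ 2 (fun q : ℝ × E => - A * q.1) := contDiff_const.mul contDiff_fst
    exact (h3.sub h2).add (contDiff_const.mul h1)
  have hkey := hvisc mt hmt' mx (lt_of_lt_of_le hnr hrR) φ hsmooth hloc
  have hder : deriv (fun s => φ (s, mx)) mt = - A - (δ / 2) * N * Real.exp (-N * (mt - t1)) := by
    have h1 : HasDerivAt (fun s => -N * (s - t1)) (-N) mt := by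
      simpa using ((hasDerivAt_id mt).sub_const t1).const_mul (-N)
    have h2 := (h1.exp).const_mul (-(δ / 2))
    have h3 : HasDerivAt (fun s => -A * s) (-A) mt := by
      simpa using (hasDerivAt_id mt).const_mul (-A)
    have h4 := (h3.sub h2).add_const (M * ‖mx - x0‖ ^ 2)
    have h5 := h4.deriv
    simp only [hφ, hP]
    rw [show (fun s => -A * s - -(δ / 2) * Real.exp (-N * (s - t1)) + M * ‖mx - x0‖ ^ 2) = fun x => ((fun s => -A * s) - fun y => -(δ / 2) * Real.exp (-N * (y - t1))) x + M * ‖mx - x0‖ ^ 2 from by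
      ext s; simp]
    rw [h5]; ring
  rw [hder] at hkey
  have : 0 < (δ / 2) * N * Real.exp (-N * (mt - t1)) := by positivity
  linarith

/-- If every test function touching g from above has nonnegative derivative in the direction v,
then g is nondecreasing in the direction v. -/
theorem mono_direction (g : E → ℝ) (hg : Continuous g) (v x0 : E)
    (h : ∀ (x : E) (φ : E → ℝ), ContDiffAt ℝ 1 φ x → IsLocalMax (fun y => g y - φ y) x →
      0 ≤ inner ℝ (gradient φ x) v) : g x0 ≤ g (x0 + v) := by
  have key := mono_of_visc (fun q : ℝ × E => g (q.2 + q.1 • v)) 0 0 1 1 x0 zero_lt_one zero_lt_one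
    (by apply Continuous.continuousOn; fun_prop) (by
      intro t _ x _ φ hφ hmax
      -- the test function for g
      set ψ : E → ℝ := fun z => φ (t, z - t • v) with hψ
      have hψc : ContDiff ℝ 2 ψ := hφ.comp (contDiff_const.prodMk (contDiff_id.sub contDiff_const))
      have hψmax : IsLocalMax (fun z => g z - ψ z) (x + t • v) := by
        have hc : Tendsto (fun z : E => ((t, z - t • v) : ℝ × E)) (𝓝 (x + t • v)) (𝓝 (t, x)) := by
          have : Continuous (fun z : E => ((t, z - t • v) : ℝ × E)) := by fun_prop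
          have h2 := this.tendsto (x + t • v)
          simpa using h2
        filter_upwards [hc.eventually hmax] with z hz
        simp only [hψ]
        simpa using hz
      have h1 := h (x + t • v) ψ (hψc.contDiffAt.of_le (by norm_num)) hψmax
      -- derivative of φ
      have hd : HasFDerivAt φ (fderiv ℝ φ (t, x)) (t, x) :=
        (hφ.differentiable (by norm_num)).differentiableAt.hasFDerivAt
      have hψd : HasFDerivAt ψ ((fderiv ℝ φ (t, x)).comp (ContinuousLinearMap.inr ℝ ℝ E))
          (x + t • v) := by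
        have h2 : HasFDerivAt (fun z : E => ((t, z - t • v) : ℝ × E))
            (ContinuousLinearMap.inr ℝ ℝ E) (x + t • v) := by
          have h3 : HasFDerivAt (fun z : E => z - t • v) (ContinuousLinearMap.id ℝ E)
            (x + t • v) := (hasFDerivAt_id _).sub_const _
          have h4 := (hasFDerivAt_const t (x + t • v)).prodMk h3
          convert h4 using 1
          ext z <;> simp
        have h5 : HasFDerivAt φ (fderiv ℝ φ (t, x)) (t, (x + t • v) - t • v) := by simpa using hd
        exact h5.comp (x + t • v) h2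
      have h6 : inner ℝ (gradient ψ (x + t • v)) v = fderiv ℝ φ (t, x) (0, v) := by
        have h7 : inner ℝ (gradient ψ (x + t • v)) v = fderiv ℝ ψ (x + t • v) v := by
          rw [← toDual_gradient]; simp
        rw [h7, hψd.fderiv]; simp
      rw [h6] at h1
      have h8 : deriv (fun s => φ (s, x)) t = fderiv ℝ φ (t, x) (1, 0) := by
        have h9 : HasDerivAt (fun s : ℝ => ((s, x) : ℝ × E)) ((1 : ℝ), (0 : E)) t :=
          (hasDerivAt_id t).prodMk (hasDerivAt_const t x)
        exact (hd.comp_hasDerivAt t h9).deriv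
      -- along the curve (t + s, x - s v) the first function is constant
      have h10 : HasDerivAt (fun s : ℝ => φ (t + s, x - s • v))
          (fderiv ℝ φ (t, x) (1, -v)) 0 := by
        have h11 : HasDerivAt (fun s : ℝ => ((t + s, x - s • v) : ℝ × E)) ((1 : ℝ), (-v : E)) 0 := by
          have h12 : HasDerivAt (fun s : ℝ => t + s) 1 0 := by
            simpa using (hasDerivAt_id (0 : ℝ)).const_add t
          have h13 : HasDerivAt (fun s : ℝ => x - s • v) (-v) 0 := by
            have := ((hasDerivAt_id (0 : ℝ)).smul_const v).const_sub x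
            simpa using this
          exact h12.prodMk h13
        have h14 : HasFDerivAt φ (fderiv ℝ φ (t, x)) (t + 0, x - (0 : ℝ) • v) := by simpa using hd
        exact h14.comp_hasDerivAt (0 : ℝ) h11
      have h15 : IsLocalMin (fun s : ℝ => φ (t + s, x - s • v)) 0 := by
        have hc : Tendsto (fun s : ℝ => ((t + s, x - s • v) : ℝ × E)) (𝓝 0) (𝓝 (t, x)) := by
          have : Continuous (fun s : ℝ => ((t + s, x - s • v) : ℝ × E)) := by fun_prop
          have h2 := this.tendsto 0
          simpa using h2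
        filter_upwards [hc.eventually hmax] with s hs
        have h16 : x - s • v + (t + s) • v = x + t • v := by rw [add_smul]; abel
        rw [h16] at hs
        simp only [add_zero, zero_smul, sub_zero]
        linarith
      have h17 := h15.hasDerivAt_eq_zero h10
      have h18 : fderiv ℝ φ (t, x) (1, -v) =
          fderiv ℝ φ (t, x) (1, 0) - fderiv ℝ φ (t, x) (0, v) := by
        rw [← map_sub]; simp
      rw [h8]
      linarith)
  simpa using key

end mono

theorem hasDerivAt_line {n : ℕ} {φ : Vec n → ℝ} {x : Vec n} (hφ : ContDiffAt ℝ 1 φ x) (v : Vec n) :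
    HasDerivAt (fun t : ℝ => φ (x + t • v)) (inner ℝ (gradient φ x) v) 0 := by
  have h1 : HasFDerivAt φ (fderiv ℝ φ x) x :=
    (hφ.differentiableAt (by norm_num)).hasFDerivAt
  have h2 : HasDerivAt (fun t : ℝ => x + t • v) v 0 := by
    have := ((hasDerivAt_id (0 : ℝ)).smul_const v).const_add x
    simpa using this
  have h3 : HasFDerivAt φ (fderiv ℝ φ x) (x + (0 : ℝ) • v) := by simpa using h1
  have h4 := h3.comp_hasDerivAt (0 : ℝ) h2
  have h5 : fderiv ℝ φ x v = inner ℝ (gradient φ x) v := by
    rw [← toDual_gradient]; simp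
  rw [h5] at h4
  exact h4

/-! ### The smooth solutions -/

/-- the solution at parameter m, on the torus -/
noncomputable def U {n : ℕ} (i : Fin n) (m : ℝ) (z : Torus n) : ℝ := Vc m (z i)

theorem U_proj {n : ℕ} (i : Fin n) (m : ℝ) (x : Vec n) : U i m (proj x) = V m (x i) := rfl

theorem U_continuous {n : ℕ} (i : Fin n) (m : ℝ) : Continuous (U (n := n) i m) :=
  (Vc_continuous m).comp (continuous_apply i)

theorem U_contDiff {n : ℕ} (i : Fin n) (m : ℝ) : ContDiff ℝ 1 (fun y : Vec n => U i m (proj y)) := by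
  have : (fun y : Vec n => U i m (proj y)) = fun y => V m (y i) := rfl
  rw [this]
  exact (V_contDiff m).comp (by fun_prop)

theorem U_hasGradient {n : ℕ} (i : Fin n) (m : ℝ) (x : Vec n) :
    HasGradientAt (fun y : Vec n => U i m (proj y)) ((R m (x i) - M m) • e i) x := by
  rw [hasGradientAt_iff_hasFDerivAt]
  have h1 : HasFDerivAt (fun y : Vec n => y i) (InnerProductSpace.toDual ℝ (Vec n) (e i)) x := by
    have h2 := (InnerProductSpace.toDual ℝ (Vec n) (e i)).hasFDerivAt (x := x)
    have h3 : (fun y : Vec n => y i) = fun y => InnerProductSpace.toDual ℝ (Vec n) (e i) y := by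
      funext y; rw [InnerProductSpace.toDual_apply_apply, inner_e]
    rw [h3]; exact h2
  have h4 := (V_hasDerivAt m (x i)).comp_hasFDerivAt x h1
  have h5 : (R m (x i) - M m) • (InnerProductSpace.toDual ℝ (Vec n)) (e i) =
      (InnerProductSpace.toDual ℝ (Vec n)) ((R m (x i) - M m) • e i) := by
    ext v; simp
  rw [h5] at h4
  exact h4

theorem G_grad {n : ℕ} (i : Fin n) (m : ℝ) (x : Vec n) :
    G i m (proj x) ((R m (x i) - M m) • e i) = m ^ 2 / 2 := by
  unfold G
  have h1 : (R m (x i) - M m) • e i + M m • e i = R m (x i) • e i := by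
    rw [← add_smul]; congr 1; ring
  have h2 : sn (proj x i) = Real.sin (Real.pi * x i) ^ 2 := sn_coe (x i)
  rw [h1, norm_smul, norm_e, mul_one, Real.norm_eq_abs, sq_abs, R_sq, h2]; ring

theorem U_solution {n : ℕ} (i : Fin n) (m : ℝ) : IsSolution (G i m) (m ^ 2 / 2) (U i m) := by
  have hgen : ∀ (x : Vec n) (φ : Vec n → ℝ), ContDiffAt ℝ 1 φ x →
      IsLocalExtr (fun y => U i m (proj y) - φ y) x → gradient φ x = (R m (x i) - M m) • e i := by
    intro x φ hφ hext
    have h1 := (hasGradientAt_iff_hasFDerivAt.1 (U_hasGradient i m x)).sub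
      (hφ.differentiableAt (by norm_num)).hasFDerivAt
    have h2 := hext.hasFDerivAt_eq_zero h1
    have h3 : fderiv ℝ φ x = InnerProductSpace.toDual ℝ (Vec n) ((R m (x i) - M m) • e i) := by
      rw [sub_eq_zero] at h2; exact h2.symm
    rw [← toDual_gradient] at h3
    exact (InnerProductSpace.toDual ℝ (Vec n)).injective h3
  refine ⟨⟨U_continuous i m, ?_⟩, ⟨U_continuous i m, ?_⟩⟩
  · intro x φ hφ hmax
    rw [hgen x φ hφ hmax.isExtr, G_grad]
  · intro x φ hφ hmin
    rw [hgen x φ hφ hmin.isExtr, G_grad]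

/-- uniqueness of the constant -/
theorem G_critical {n : ℕ} (i : Fin n) (m : ℝ) : IsCriticalValue (G i m) (m ^ 2 / 2) := by
  intro a
  constructor
  · rintro ⟨v, hsub, hsup⟩
    have hc : Continuous (fun z : Torus n => v z - U i m z) := hsub.1.sub (U_continuous i m)
    apply le_antisymm
    · obtain ⟨z, -, hz⟩ := isCompact_univ.exists_isMinOn (univ_nonempty (α := Torus n))
        hc.continuousOn
      obtain ⟨x, rfl⟩ := proj_surjective z
      have h1 := hsup.2 x _ (U_contDiff i m).contDiffAt (Filter.Eventually.of_forall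
        fun y => hz (mem_univ (proj y)))
      rwa [(U_hasGradient i m x).gradient, G_grad] at h1
    · obtain ⟨z, -, hz⟩ := isCompact_univ.exists_isMaxOn (univ_nonempty (α := Torus n))
        hc.continuousOn
      obtain ⟨x, rfl⟩ := proj_surjective z
      have h1 := hsub.2 x _ (U_contDiff i m).contDiffAt (Filter.Eventually.of_forall
        fun y => hz (mem_univ (proj y)))
      rwa [(U_hasGradient i m x).gradient, G_grad] at h1
  · rintro rfl
    exact ⟨_, U_solution i m⟩

theorem proj_add_int {n : ℕ} (i : Fin n) (x : Vec n) (k : ℤ) :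
    proj (x + (k : ℝ) • e i) = proj x := by
  funext j
  unfold proj
  have h1 : (x + (k : ℝ) • e i) j = x j + (k : ℝ) * (e i : Vec n) j := by simp
  rw [h1]
  by_cases hj : j = i
  · subst hj
    have : (e j : Vec n) j = 1 := by simp [e]
    rw [this, mul_one, AddCircle.coe_add]
    have h2 : ((k : ℝ) : UnitAddCircle) = 0 := by
      rw [AddCircle.coe_eq_zero_iff]; exact ⟨k, by simp⟩
    rw [h2, add_zero]
  · have : (e i : Vec n) j = 0 := by simp [e, hj]
    rw [this, mul_zero, add_zero]

/-- uniqueness of the solution up to constants (already among subsolutions) -/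
theorem subsolution_unique {n : ℕ} (i : Fin n) (m : ℝ) (v : Torus n → ℝ)
    (hv : IsSubsolution (G i m) (m ^ 2 / 2) v) : ∃ b : ℝ, ∀ z, v z = U i m z + b := by
  set g : Vec n → ℝ := fun x => v (proj x) - U i m (proj x) with hg
  have hgc : Continuous g := (hv.1.comp proj_continuous).sub (U_contDiff i m).continuous
  have hper : ∀ (x : Vec n) (k : ℤ), g (x + (k : ℝ) • e i) = g x := by
    intro x k; simp only [hg, proj_add_int]
  -- the viscosity inequality for g
  have hineq : ∀ (x : Vec n) (φ : Vec n → ℝ), ContDiffAt ℝ 1 φ x →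
      IsLocalMax (fun y => g y - φ y) x →
      ‖gradient φ x‖ ^ 2 + 2 * R m (x i) * inner ℝ (gradient φ x) (e i) ≤ 0 := by
    intro x φ hφ hmax
    have h1 : ContDiffAt ℝ 1 (fun y => U i m (proj y) + φ y) x :=
      (U_contDiff i m).contDiffAt.add hφ
    have h2 : IsLocalMax (fun y => v (proj y) - (U i m (proj y) + φ y)) x := by
      filter_upwards [hmax] with y hy
      simp only [hg] at hy
      linarith
    have h3 := hv.2 x _ h1 h2
    have h4 : HasGradientAt (fun y => U i m (proj y) + φ y)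
        ((R m (x i) - M m) • e i + gradient φ x) x := by
      rw [hasGradientAt_iff_hasFDerivAt, map_add]
      exact (hasGradientAt_iff_hasFDerivAt.1 (U_hasGradient i m x)).add
        (hasGradientAt_iff_hasFDerivAt.1 (hφ.differentiableAt (by norm_num)).hasGradientAt)
    rw [h4.gradient] at h3
    unfold G at h3
    have h5 : (R m (x i) - M m) • e i + gradient φ x + M m • e i =
        R m (x i) • e i + gradient φ x := by rw [sub_smul]; abel
    have h6 : sn (proj x i) = Real.sin (Real.pi * x i) ^ 2 := sn_coe (x i)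
    have h7 : ‖R m (x i) • e i + gradient φ x‖ ^ 2 =
        R m (x i) ^ 2 + 2 * R m (x i) * inner ℝ (gradient φ x) (e i) + ‖gradient φ x‖ ^ 2 := by
      rw [norm_add_sq_real, norm_smul, norm_e, mul_one, Real.norm_eq_abs, sq_abs, inner_smul_left,
        real_inner_comm]
      simp; ring
    rw [h5, h7, h6, R_sq] at h3
    linarith
  -- nonincreasing in the direction e
  have hdec : ∀ x : Vec n, g (x + e i) ≤ g x ∧ ∀ t : ℝ, 0 ≤ t → g (x + t • e i) ≤ g x := by
    have hmain : ∀ x : Vec n, ∀ t : ℝ, 0 ≤ t → g (x + t • e i) ≤ g x := by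
      intro x t ht
      have := mono_direction g hgc (-(t • e i)) (x + t • e i) (by
        intro y φ hφ hmax
        have h1 := hineq y φ hφ hmax
        have h2 : inner ℝ (gradient φ y) (e i) ≤ 0 := by
          by_contra hcon
          push Not at hcon
          have h3 : 0 < ‖gradient φ y‖ := by
            rw [norm_pos_iff]
            intro h0
            rw [h0, inner_zero_left] at hcon
            exact lt_irrefl _ hcon
          have h4 := R_nonneg m (y i)
          have h5 : 0 ≤ 2 * R m (y i) * inner ℝ (gradient φ y) (e i) := by positivity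
          have h6 : 0 < ‖gradient φ y‖ ^ 2 := by positivity
          linarith
        rw [inner_neg_right, inner_smul_right]
        nlinarith)
      simpa using this
    intro x
    refine ⟨?_, hmain x⟩
    have := hmain x 1 zero_le_one
    simpa using this
  have hconst : ∀ (x : Vec n) (t : ℝ), g (x + t • e i) = g x := by
    intro x t
    apply le_antisymm
    · -- shift t to be nonnegative
      obtain ⟨k, hk⟩ := exists_int_gt (-t)
      have h1 := (hdec x).2 (t + k) (by linarith)
      have h2 : x + (t + (k : ℝ)) • e i = (x + t • e i) + (k : ℝ) • e i := by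
        rw [add_smul]; abel
      rw [h2, hper] at h1
      exact h1
    · obtain ⟨k, hk⟩ := exists_int_gt t
      have h1 := (hdec (x + t • e i)).2 (k - t) (by linarith)
      have h2 : x + t • e i + ((k : ℝ) - t) • e i = x + (k : ℝ) • e i := by
        rw [sub_smul]; abel
      rw [h2, hper] at h1
      exact h1
  have hgrad0 : ∀ (x : Vec n) (φ : Vec n → ℝ), ContDiffAt ℝ 1 φ x →
      IsLocalMax (fun y => g y - φ y) x → gradient φ x = 0 := by
    intro x φ hφ hmax
    have h1 : IsLocalMin (fun t : ℝ => φ (x + t • e i)) 0 := by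
      have hc : Tendsto (fun t : ℝ => x + t • e i) (𝓝 0) (𝓝 x) := by
        have : Continuous (fun t : ℝ => x + t • (e i : Vec n)) := by fun_prop
        simpa using this.tendsto 0
      filter_upwards [hc.eventually hmax] with t ht
      rw [hconst] at ht
      rw [zero_smul, add_zero]
      linarith
    have h2 := h1.hasDerivAt_eq_zero (hasDerivAt_line hφ (e i))
    have h3 := hineq x φ hφ hmax
    rw [h2, mul_zero, add_zero] at h3
    have h4 : ‖gradient φ x‖ ^ 2 = 0 := le_antisymm h3 (sq_nonneg _)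
    rw [← norm_eq_zero]
    exact pow_eq_zero_iff (two_ne_zero) |>.1 h4
  have hall : ∀ x y : Vec n, g x ≤ g y := by
    intro x y
    have := mono_direction g hgc (y - x) x (by
      intro z φ hφ hmax
      rw [hgrad0 z φ hφ hmax, inner_zero_left])
    simpa using this
  refine ⟨g 0, ?_⟩
  intro z
  obtain ⟨x, rfl⟩ := proj_surjective z
  have h1 : g x = g 0 := le_antisymm (hall x 0) (hall 0 x)
  have h2 : g x = v (proj x) - U i m (proj x) := rfl
  linarith

/-! ### The Lagrangian and the action -/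

theorem legendre_G {n : ℕ} (i : Fin n) (m : ℝ) (z : Torus n) (v : Vec n) :
    legendre (G i m) z v = (1 / 2) * ‖v‖ ^ 2 - M m * v i + (1 / 2) * sn (z i) := by
  have hle : ∀ p : Vec n, inner ℝ p v - G i m z p ≤
      (1 / 2) * ‖v‖ ^ 2 - M m * v i + (1 / 2) * sn (z i) := by
    intro p
    unfold G
    have h1 : inner ℝ p v = inner ℝ (p + M m • e i) v - M m * v i := by
      rw [inner_add_left, inner_smul_left, inner_e]; simp
    have h2 : inner ℝ (p + M m • e i) v ≤ (1 / 2) * ‖p + M m • e i‖ ^ 2 + (1 / 2) * ‖v‖ ^ 2 := by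
      have h3 := norm_sub_sq_real (p + M m • e i) v
      nlinarith [sq_nonneg ‖p + M m • e i - v‖]
    rw [h1]; linarith
  unfold legendre
  apply le_antisymm
  · exact ciSup_le hle
  · refine le_ciSup_of_le (f := fun p : Vec n => inner ℝ p v - G i m z p)
      ⟨(1 / 2) * ‖v‖ ^ 2 - M m * v i + (1 / 2) * sn (z i), ?_⟩ (v - M m • e i) ?_
    · rintro _ ⟨p, rfl⟩; exact hle p
    · unfold G
      have h1 : v - M m • e i + M m • e i = v := by abel
      rw [h1, inner_sub_left, inner_smul_left, inner_e, real_inner_self_eq_norm_sq]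
      simp; linarith

theorem coord_ac {n : ℕ} (γ : ℝ → Vec n) (a b : ℝ) (h : AbsolutelyContinuousOnInterval γ a b)
    (j : Fin n) : AbsolutelyContinuousOnInterval (fun s => γ s j) a b := by
  rw [absolutelyContinuousOnInterval_iff] at h ⊢
  intro ε hε
  obtain ⟨δ, hδ, h⟩ := h ε hε
  refine ⟨δ, hδ, fun E hE hlt => lt_of_le_of_lt ?_ (h E hE hlt)⟩
  apply Finset.sum_le_sum
  intro k _
  rw [dist_eq_norm, dist_eq_norm]
  exact PiLp.norm_apply_le (γ (E.2 k).1 - γ (E.2 k).2) j

theorem V_lipschitz (m : ℝ) (hm : 0 ≤ m) (s t : ℝ) :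
    |V m s - V m t| ≤ (1 + m + |M m|) * |s - t| := by
  have h1 : ∀ x ∈ (univ : Set ℝ), ‖deriv (V m) x‖ ≤ 1 + m + |M m| := by
    intro x _
    rw [(V_hasDerivAt m x).deriv, Real.norm_eq_abs]
    calc |R m x - M m| ≤ |R m x| + |M m| := abs_sub _ _
      _ ≤ 1 + m + |M m| := by
        rw [abs_of_nonneg (R_nonneg m x)]
        linarith [R_le m hm x]
  have h2 := Convex.norm_image_sub_le_of_norm_deriv_le (f := V m) (s := univ)
    (fun x _ => (V_hasDerivAt m x).differentiableAt) h1 convex_univ (mem_univ t) (mem_univ s)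
  simpa [Real.norm_eq_abs] using h2

theorem V_comp_ac (m : ℝ) (hm : 0 ≤ m) (ξ : ℝ → ℝ) (a b : ℝ)
    (h : AbsolutelyContinuousOnInterval ξ a b) :
    AbsolutelyContinuousOnInterval (fun s => V m (ξ s)) a b := by
  set K := 1 + m + |M m| with hK
  have hKpos : 0 < K := by positivity
  rw [absolutelyContinuousOnInterval_iff] at h ⊢
  intro ε hε
  obtain ⟨δ, hδ, h⟩ := h (ε / K) (by positivity)
  refine ⟨δ, hδ, fun E hE hlt => ?_⟩
  have h1 := h E hE hlt
  have h2 : ∑ k ∈ Finset.range E.1, dist (V m (ξ (E.2 k).1)) (V m (ξ (E.2 k).2)) ≤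
      K * ∑ k ∈ Finset.range E.1, dist (ξ (E.2 k).1) (ξ (E.2 k).2) := by
    rw [Finset.mul_sum]
    apply Finset.sum_le_sum
    intro k _
    rw [Real.dist_eq, Real.dist_eq]
    exact V_lipschitz m hm _ _
  calc _ ≤ _ := h2
    _ < K * (ε / K) := by gcongr
    _ = ε := by field_simp

/-- The action of a loop is nonnegative. -/
theorem action_nonneg {n : ℕ} (i : Fin n) (m : ℝ) (hm : 0 ≤ m) (t : ℝ) (ht : 0 < t)
    (x : Torus n) (γ : ℝ → Vec n) (hγ : IsCurve (G i m) t x x γ) :
    0 ≤ ∫ s in (0 : ℝ)..t, (legendre (G i m) (proj (γ s)) (deriv γ s) + m ^ 2 / 2) := by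
  obtain ⟨hac, h0, h1, hint⟩ := hγ
  set ξ : ℝ → ℝ := fun s => γ s i with hξ
  have hξac : AbsolutelyContinuousOnInterval ξ 0 t := coord_ac γ 0 t hac i
  have hVac := V_comp_ac m hm ξ 0 t hξac
  have hFTC := hVac.integral_deriv_eq_sub
  have hends : V m (ξ t) - V m (ξ 0) = 0 := by
    have h2 : U i m (proj (γ t)) = U i m (proj (γ 0)) := by rw [h0, h1]
    rw [U_proj, U_proj] at h2
    simp only [hξ]; linarith
  rw [hends] at hFTC
  refine le_of_eq_of_le hFTC.symm ?_
  apply intervalIntegral.integral_mono_ae_restrict ht.le hVac.intervalIntegrable_deriv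
    (hint.add (by simp))
  have hdiff : ∀ᵐ s, s ∈ uIcc 0 t → DifferentiableAt ℝ γ s := by
    have h3 : ∀ j : Fin n, ∀ᵐ s, s ∈ uIcc 0 t → DifferentiableAt ℝ (fun s => γ s j) s :=
      fun j => (coord_ac γ 0 t hac j).ae_differentiableAt
    have h4 := ae_all_iff.2 h3
    filter_upwards [h4] with s hs hmem
    rw [differentiableAt_euclidean]
    exact fun j => hs j hmem
  rw [Filter.EventuallyLE]
  refine (ae_restrict_iff' measurableSet_Icc).2 ?_
  filter_upwards [hdiff] with s hs hmem
  rw [uIcc_of_le ht.le] at hs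
  have hγs := (hs hmem).hasDerivAt
  have hξs : HasDerivAt ξ ((deriv γ s) i) s := by
    have h5 := (EuclideanSpace.proj (𝕜 := ℝ) i).hasFDerivAt.comp_hasDerivAt s hγs
    exact h5
  have hVs : HasDerivAt (fun s => V m (ξ s)) ((R m (ξ s) - M m) * (deriv γ s) i) s :=
    (V_hasDerivAt m (ξ s)).comp s hξs
  rw [hVs.deriv, legendre_G]
  have h6 : sn (proj (γ s) i) = Real.sin (Real.pi * ξ s) ^ 2 := sn_coe (ξ s)
  rw [h6]
  have h7 := R_sq m (ξ s)
  have h8 : (deriv γ s) i ^ 2 ≤ ‖deriv γ s‖ ^ 2 := by
    have h9 := PiLp.norm_apply_le (deriv γ s) i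
    rw [Real.norm_eq_abs] at h9
    calc (deriv γ s) i ^ 2 = |(deriv γ s) i| ^ 2 := (sq_abs _).symm
      _ ≤ ‖deriv γ s‖ ^ 2 := by gcongr
  nlinarith [sq_nonneg (R m (ξ s) - (deriv γ s) i)]

/-! ### Orbits of the pendulum -/

theorem exists_orbit (m : ℝ) (hm : 0 < m) :
    ∃ X : ℝ → ℝ, (∀ s, HasDerivAt X (R m (X s)) s) ∧ Function.Surjective X := by
  set T : ℝ → ℝ := fun ξ => ∫ η in (0 : ℝ)..ξ, (R m η)⁻¹ with hT
  have hic : Continuous (fun η => (R m η)⁻¹) :=
    (R_continuous m).inv₀ (fun η => (R_pos hm η).ne')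
  have hTd : ∀ ξ, HasDerivAt T ((R m ξ)⁻¹) ξ := by
    intro ξ
    exact intervalIntegral.integral_hasDerivAt_right (hic.intervalIntegrable _ _)
      (hic.stronglyMeasurableAtFilter _ _) hic.continuousAt
  have hTmono : StrictMono T := by
    apply strictMono_of_deriv_pos
    intro ξ
    rw [(hTd ξ).deriv]
    have := R_pos hm ξ
    positivity
  have hTc : Continuous T := continuous_iff_continuousAt.2 fun ξ => (hTd ξ).continuousAt
  have hlow : ∀ ξ, (1 + m)⁻¹ ≤ (R m ξ)⁻¹ := by
    intro ξ
    exact inv_anti₀ (R_pos hm ξ) (R_le m hm.le ξ)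
  have hgrow : ∀ a b, a ≤ b → (1 + m)⁻¹ * (b - a) ≤ T b - T a := by
    intro a b hab
    have h1 : T b - T a = ∫ η in a..b, (R m η)⁻¹ := by
      simp only [hT]
      rw [sub_eq_iff_eq_add', intervalIntegral.integral_add_adjacent_intervals
        (hic.intervalIntegrable _ _) (hic.intervalIntegrable _ _)]
    have h2 : (∫ η in a..b, (1 + m)⁻¹) ≤ ∫ η in a..b, (R m η)⁻¹ := by
      apply intervalIntegral.integral_mono_on hab (by simp) (hic.intervalIntegrable _ _)
      intro η _; exact hlow η
    rw [intervalIntegral.integral_const, smul_eq_mul] at h2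
    rw [h1]; linarith
  have hT0 : T 0 = 0 := by simp [hT]
  have hpos : 0 < (1 + m)⁻¹ := by positivity
  have hsurj : Function.Surjective T := by
    apply hTc.surjective
    · apply tendsto_atTop_mono' atTop (f₁ := fun ξ => (1 + m)⁻¹ * ξ)
      · filter_upwards [eventually_ge_atTop 0] with ξ hξ
        have := hgrow 0 ξ hξ
        rw [hT0] at this
        linarith
      · exact tendsto_id.const_mul_atTop hpos
    · apply tendsto_atBot_mono' atBot (f₁ := fun ξ => (1 + m)⁻¹ * ξ)
      · filter_upwards [eventually_le_atBot 0] with ξ hξ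
        have := hgrow ξ 0 hξ
        rw [hT0] at this
        linarith
      · exact tendsto_id.const_mul_atBot hpos
  set eq := StrictMono.orderIsoOfSurjective T hTmono hsurj with heq
  have hTX : ∀ s, T (eq.symm s) = s := fun s => StrictMono.orderIsoOfSurjective_self_symm_apply T hTmono hsurj s
  refine ⟨eq.symm, ?_, eq.symm.surjective⟩
  intro s
  have h1 := HasDerivAt.of_local_left_inverse (f := T) (g := eq.symm) (a := s)
    (eq.symm.continuous.continuousAt) (hTd _) (inv_ne_zero (R_pos hm _).ne')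
    (Filter.Eventually.of_forall hTX)
  rwa [inv_inv] at h1

theorem P_add_nat (m t : ℝ) (k : ℕ) : P m (t + k) = P m t + k * M m := by
  induction k with
  | zero => simp
  | succ k ih =>
    push_cast
    rw [← add_assoc, P_add_one, ih]; ring

/-- Loops of small action. -/
theorem exists_loop {n : ℕ} (i : Fin n) (m m' : ℝ) (hm : 0 ≤ m) (hmm : m ≤ m') (hm' : 0 < m')
    (x : Vec n) (k : ℕ) :
    ∃ t : ℝ, k / (1 + m') ≤ t ∧ minAction (G i m) (m ^ 2 / 2) (proj x) (proj x) t ≤
      ((k * (m' - m) / 2 : ℝ) : EReal) := by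
  obtain ⟨X, hX, hsurj⟩ := exists_orbit m' hm'
  obtain ⟨s0, hs0⟩ := hsurj (x i)
  obtain ⟨s1, hs1⟩ := hsurj (x i + k)
  have hXc : Continuous X := continuous_iff_continuousAt.2 fun s => (hX s).continuousAt
  have hXmono : StrictMono X := by
    apply strictMono_of_deriv_pos
    intro s; rw [(hX s).deriv]; exact R_pos hm' _
  have h01 : s0 ≤ s1 := by
    by_contra hcon
    push Not at hcon
    have := hXmono hcon
    rw [hs0, hs1] at this
    have : (0 : ℝ) ≤ k := Nat.cast_nonneg k
    linarith
  have hXlip : ∀ a b, |X a - X b| ≤ (1 + m') * |a - b| := by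
    intro a b
    have h2 := Convex.norm_image_sub_le_of_norm_deriv_le (f := X) (s := univ) (C := 1 + m')
      (fun x _ => (hX x).differentiableAt) (by
        intro s _
        rw [(hX s).deriv, Real.norm_eq_abs, abs_of_nonneg (R_nonneg _ _)]
        exact R_le m' hm'.le _) convex_univ (mem_univ b) (mem_univ a)
    simpa [Real.norm_eq_abs] using h2
  have hlen : (k : ℝ) ≤ (1 + m') * (s1 - s0) := by
    have h1 := hXlip s1 s0
    rw [hs0, hs1, add_sub_cancel_left, abs_of_nonneg (Nat.cast_nonneg k),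
      abs_of_nonneg (by linarith)] at h1
    exact h1
  refine ⟨s1 - s0, ?_, ?_⟩
  · rw [div_le_iff₀ (by positivity)]; linarith
  set γ : ℝ → Vec n := fun s => x + (X (s + s0) - x i) • e i with hγ
  have hγi : ∀ s, γ s i = X (s + s0) := by
    intro s
    have : (e i : Vec n) i = 1 := by simp [e]
    simp [hγ, this]
  have hγd : ∀ s, HasDerivAt γ (R m' (X (s + s0)) • e i) s := by
    intro s
    have h1 : HasDerivAt (fun s => X (s + s0)) (R m' (X (s + s0))) s :=
      (hX (s + s0)).comp_add_const s s0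
    exact ((h1.sub_const (x i)).smul_const (e i)).const_add x
  have hγder : ∀ s, deriv γ s = R m' (X (s + s0)) • e i := fun s => (hγd s).deriv
  have hleg : ∀ s, legendre (G i m) (proj (γ s)) (deriv γ s) + m ^ 2 / 2 =
      (1 / 2) * R m' (X (s + s0)) ^ 2 - M m * R m' (X (s + s0)) +
        (1 / 2) * R m (X (s + s0)) ^ 2 := by
    intro s
    rw [legendre_G, hγder]
    have h6 : sn (proj (γ s) i) = Real.sin (Real.pi * X (s + s0)) ^ 2 := by
      rw [← hγi s]; exact sn_coe (γ s i)
    have h7 : (R m' (X (s + s0)) • (e i : Vec n)) i = R m' (X (s + s0)) := by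
      simp [e]
    rw [h6, h7, norm_smul, norm_e, mul_one, Real.norm_eq_abs, sq_abs, R_sq m]
    ring
  have hcurve : IsCurve (G i m) (s1 - s0) (proj x) (proj x) γ := by
    refine ⟨?_, ?_, ?_, ?_⟩
    · have hL : LipschitzWith (Real.toNNReal (1 + m')) γ := by
        apply LipschitzWith.of_dist_le_mul
        intro a b
        rw [dist_eq_norm, Real.coe_toNNReal _ (by positivity), Real.dist_eq]
        have h1 : γ a - γ b = (X (a + s0) - X (b + s0)) • e i := by
          simp only [hγ]; rw [add_sub_add_left_eq_sub, ← sub_smul]; congr 1; ring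
        rw [h1, norm_smul, norm_e, mul_one, Real.norm_eq_abs]
        have h2 := hXlip (a + s0) (b + s0)
        simpa using h2
      exact hL.lipschitzOnWith.absolutelyContinuousOnInterval
    · congr 1
      simp [hγ, hs0]
    · have h1 : γ (s1 - s0) = x + ((k : ℤ) : ℝ) • e i := by
        simp only [hγ]
        rw [sub_add_cancel, hs1]
        simp
      rw [h1, proj_add_int]
    · have h1 : (fun s => legendre (G i m) (proj (γ s)) (deriv γ s)) = fun s =>
          (1 / 2) * R m' (X (s + s0)) ^ 2 - M m * R m' (X (s + s0)) +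
            (1 / 2) * R m (X (s + s0)) ^ 2 - m ^ 2 / 2 := by
        funext s
        have := hleg s
        linarith
      rw [h1]
      apply Continuous.intervalIntegrable
      have hc1 := R_continuous m'
      have hc2 := R_continuous m
      fun_prop
  refine (iInf₂_le γ hcurve).trans ?_
  rw [EReal.coe_le_coe_iff]
  -- primitive
  set W : ℝ → ℝ := fun ξ => (1 / 2) * P m' ξ + (1 / 2) * P m ξ - M m * ξ with hW
  have hWd : ∀ s, HasDerivAt (fun s => W (X (s + s0)))
      (((1 / 2) * R m' (X (s + s0)) + (1 / 2) * R m (X (s + s0)) - M m) *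
        R m' (X (s + s0))) s := by
    intro s
    have h1 : HasDerivAt (fun s => X (s + s0)) (R m' (X (s + s0))) s :=
      (hX (s + s0)).comp_add_const s s0
    have h2 : ∀ ξ, HasDerivAt W ((1 / 2) * R m' ξ + (1 / 2) * R m ξ - M m) ξ := by
      intro ξ
      have h3 := (((P_hasDerivAt m' ξ).const_mul (1 / 2)).fun_add
        ((P_hasDerivAt m ξ).const_mul (1 / 2))).fun_sub ((hasDerivAt_id ξ).const_mul (M m))
      simpa [hW] using h3
    exact (h2 _).comp s h1
  have hFTC : (∫ s in (0 : ℝ)..(s1 - s0),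
      (((1 / 2) * R m' (X (s + s0)) + (1 / 2) * R m (X (s + s0)) - M m) *
        R m' (X (s + s0)))) = W (X (s1 - s0 + s0)) - W (X (0 + s0)) := by
    apply intervalIntegral.integral_eq_sub_of_hasDerivAt (fun s _ => hWd s)
    apply Continuous.intervalIntegrable
    have hc1 := R_continuous m'
    have hc2 := R_continuous m
    fun_prop
  have hmono : (∫ s in (0 : ℝ)..(s1 - s0),
      (legendre (G i m) (proj (γ s)) (deriv γ s) + m ^ 2 / 2)) ≤
      ∫ s in (0 : ℝ)..(s1 - s0),
      (((1 / 2) * R m' (X (s + s0)) + (1 / 2) * R m (X (s + s0)) - M m) *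
        R m' (X (s + s0))) := by
    simp_rw [hleg]
    apply intervalIntegral.integral_mono_on (by linarith)
    · apply Continuous.intervalIntegrable
      have hc1 := R_continuous m'
      have hc2 := R_continuous m
      fun_prop
    · apply Continuous.intervalIntegrable
      have hc1 := R_continuous m'
      have hc2 := R_continuous m
      fun_prop
    · intro s _
      have h1 := R_mono hm hmm (X (s + s0))
      have h2 := R_nonneg m (X (s + s0))
      nlinarith
  rw [hFTC, sub_add_cancel, zero_add, hs0, hs1] at hmono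
  have hend : W (x i + k) - W (x i) = (1 / 2) * k * (M m' - M m) := by
    simp only [hW]; rw [P_add_nat, P_add_nat]; ring
  rw [hend] at hmono
  have h3 := M_lip hm hmm
  have h4 : (0 : ℝ) ≤ k := Nat.cast_nonneg k
  refine hmono.trans ?_
  nlinarith

/-- The projected Aubry set is the whole torus. -/
theorem aubry_eq_univ {n : ℕ} (i : Fin n) (m : ℝ) (hm : 0 ≤ m) :
    aubry (G (n := n) i m) (m ^ 2 / 2) = univ := by
  rw [eq_univ_iff_forall]
  intro z
  obtain ⟨x, rfl⟩ := proj_surjective z
  show peierls (G i m) (m ^ 2 / 2) (proj x) (proj x) = 0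
  apply le_antisymm
  · -- upper bound
    apply le_of_forall_gt_imp_ge_of_dense
    intro b hb
    obtain ⟨ε, hε0, hεb⟩ := EReal.lt_iff_exists_real_btwn.1 hb
    have hε : 0 < ε := by exact_mod_cast hε0
    refine le_trans ?_ hεb.le
    apply liminf_le_of_frequently_le'
    rw [Filter.frequently_atTop]
    intro T0
    obtain ⟨k, hk⟩ := exists_nat_gt (max 1 ((2 + m) * T0))
    have hk1 : (1 : ℝ) < k := lt_of_le_of_lt (le_max_left _ _) hk
    have hk2 : (2 + m) * T0 < k := lt_of_le_of_lt (le_max_right _ _) hk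
    set η := min 1 (2 * ε / k) with hη
    have hηpos : 0 < η := by positivity
    have hη1 : η ≤ 1 := min_le_left _ _
    have hη2 : η ≤ 2 * ε / k := min_le_right _ _
    obtain ⟨t, ht, hact⟩ := exists_loop i m (m + η) hm (by linarith) (by linarith) x k
    refine ⟨t, ?_, hact.trans ?_⟩
    · refine le_trans ?_ ht
      rw [le_div_iff₀ (by positivity)]
      rcases le_total 0 T0 with h | h
      · nlinarith
      · nlinarith
    · rw [EReal.coe_le_coe_iff]
      have h1 : (k : ℝ) * η ≤ 2 * ε := by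
        have : (k : ℝ) * η ≤ k * (2 * ε / k) := by gcongr
        have h2 : (k : ℝ) * (2 * ε / k) = 2 * ε := by field_simp
        linarith
      have h2 : (k : ℝ) * (m + η - m) / 2 = k * η / 2 := by ring
      rw [h2]; linarith
  · apply le_liminf_of_le
    · isBoundedDefault
    filter_upwards [eventually_gt_atTop 0] with t ht
    apply le_iInf₂
    intro γ hγ
    have := action_nonneg i m hm t ht (proj x) γ hγ
    exact_mod_cast this

/-! ### The Hamiltonian is Tonelli -/

theorem G_tonelli {n : ℕ} (i : Fin n) (m : ℝ) : IsTonelli (G (n := n) i m) := by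
  refine ⟨?_, ?_, ?_⟩
  · have h1 : (fun q : Vec n × Vec n => G i m (proj q.1) q.2) = fun q =>
        (1 / 2) * ‖q.2 + M m • e i‖ ^ 2 - (1 / 2) * Real.sin (Real.pi * q.1 i) ^ 2 := by
      funext q
      unfold G
      have h6 : sn (proj q.1 i) = Real.sin (Real.pi * q.1 i) ^ 2 := sn_coe (q.1 i)
      rw [h6]
    rw [h1]
    have h2 : ContDiff ℝ ∞ (fun q : Vec n × Vec n => q.1 i) := by fun_prop
    have h3 : ContDiff ℝ ∞ (fun q : Vec n × Vec n => ‖q.2 + M m • e i‖ ^ 2) :=
      (contDiff_snd.add contDiff_const).norm_sq ℝ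
    exact (contDiff_const.mul h3).sub (contDiff_const.mul
      ((Real.contDiff_sin.comp (contDiff_const.mul h2)).pow 2))
  · intro z p v hv
    have h1 : ∀ q : Vec n, HasFDerivAt (G i m z) (innerSL ℝ (q + M m • e i)) q := by
      intro q
      have h2 : HasFDerivAt (fun q : Vec n => q + M m • e i) (ContinuousLinearMap.id ℝ (Vec n)) q :=
        (hasFDerivAt_id q).add_const _
      have h3 := ((h2.norm_sq).const_mul (1 / 2 : ℝ)).sub_const ((1 / 2) * sn (z i))
      have h4 : (1 / 2 : ℝ) • (2 • (innerSL ℝ (q + M m • e i)).comp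
          (ContinuousLinearMap.id ℝ (Vec n))) = innerSL ℝ (q + M m • e i) := by
        ext w; simp
      rw [h4] at h3
      exact h3
    have h5 : fderiv ℝ (G i m z) = fun q => innerSL ℝ (q + M m • e i) :=
      funext fun q => (h1 q).fderiv
    have h6 : HasFDerivAt (fun q : Vec n => innerSL ℝ (q + M m • e i)) (innerSL ℝ) p := by
      have h7 : HasFDerivAt (fun q : Vec n => q + M m • e i) (ContinuousLinearMap.id ℝ (Vec n)) p :=
        (hasFDerivAt_id p).add_const _
      exact (innerSL ℝ).hasFDerivAt.comp p h7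
    rw [h5, h6.fderiv]
    rw [innerSL_apply_apply, real_inner_self_eq_norm_sq]
    have := norm_pos_iff.2 hv
    positivity
  · intro A
    refine ⟨2 * (|A| + 1 + |M m|) + 2 * |M m|, ?_⟩
    intro x p hp
    have h1 : ‖p‖ ≤ ‖p + M m • e i‖ + |M m| := by
      have h2 : p = (p + M m • e i) - M m • e i := by abel
      calc ‖p‖ = ‖(p + M m • e i) - M m • e i‖ := by rw [← h2]
        _ ≤ ‖p + M m • e i‖ + ‖M m • e i‖ := norm_sub_le _ _
        _ = ‖p + M m • e i‖ + |M m| := by rw [norm_smul, norm_e, mul_one, Real.norm_eq_abs]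
    have h2 := sn_le_one (x i)
    have h3 := abs_nonneg A
    have h4 := le_abs_self A
    have h5 := abs_nonneg (M m)
    unfold G
    set N := ‖p + M m • e i‖
    set r := ‖p‖
    have h6 : r - |M m| ≤ N := by linarith
    have h7 : 0 ≤ r - |M m| := by nlinarith
    have h8 : (r - |M m|) ^ 2 ≤ N ^ 2 := by
      apply pow_le_pow_left₀ h7 h6
    have h9 : A * r ≤ |A| * r := by
      apply mul_le_mul_of_nonneg_right h4; positivity
    have h10 : r - |M m| ≥ 2 * (|A| + 1 + |M m|) + |M m| := by linarith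
    have h11 : |A| * r + 1 / 2 ≤ (1 / 2) * (r - |M m|) ^ 2 := by
      have h12 : (2 * (|A| + 1 + |M m|) + |M m|) * (r - |M m|) ≤ (r - |M m|) ^ 2 := by
        rw [sq]; apply mul_le_mul_of_nonneg_right h10 h7
      nlinarith [mul_nonneg h3 h7, mul_nonneg h5 h7, mul_nonneg h3 h5]
    linarith

/-! ### The Lipschitz norm stays bounded below -/

theorem D_of_eq {n : ℕ} (i : Fin n) (m b : ℝ) (v : Torus n → ℝ) (hv : ∀ z, v z = U i m z + b)
    (x : Vec n) : D v x = (R m (x i) - M m) • e i := by
  unfold D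
  have h1 : (fun y : Vec n => v (proj y)) = fun y => U i m (proj y) + b := funext fun y => hv _
  rw [h1]
  have h2 : HasGradientAt (fun y : Vec n => U i m (proj y) + b) ((R m (x i) - M m) • e i) x := by
    rw [hasGradientAt_iff_hasFDerivAt]
    exact (hasGradientAt_iff_hasFDerivAt.1 (U_hasGradient i m x)).add_const b
  exact h2.gradient

theorem norm_coe_of_le (t : ℝ) (h : |t| ≤ 1 / 2) : ‖(t : UnitAddCircle)‖ = |t| := by
  rw [AddCircle.norm_coe_eq_abs_iff (p := (1 : ℝ)) one_ne_zero]
  simpa using h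

theorem torusDist_bounds {n : ℕ} (i : Fin n) (h : ℝ) (h0 : 0 ≤ h) (h1 : h ≤ 1 / 2) :
    torusDist (proj (0 : Vec n)) (proj (h • e i)) = h := by
  unfold torusDist
  have hbd : ∀ r ∈ {r : ℝ | ∃ a b : Vec n, proj a = proj (0 : Vec n) ∧
      proj b = proj (h • e i) ∧ r = ‖a - b‖}, h ≤ r := by
    rintro r ⟨a, b, ha, hb, rfl⟩
    have h2 : |(a - b) i| ≤ ‖a - b‖ := by
      have := PiLp.norm_apply_le (a - b) i
      rwa [Real.norm_eq_abs] at this
    have h3 : ((a i : ℝ) : UnitAddCircle) = 0 := by
      have := congrFun ha i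
      simpa [proj] using this
    have h4 : ((b i : ℝ) : UnitAddCircle) = (h : UnitAddCircle) := by
      have := congrFun hb i
      simpa [proj, e] using this
    have h5 : (((b - a) i : ℝ) : UnitAddCircle) = (h : UnitAddCircle) := by
      have : (b - a) i = b i - a i := rfl
      rw [this, AddCircle.coe_sub, h3, h4, sub_zero]
    have h6 : ‖(((b - a) i : ℝ) : UnitAddCircle)‖ ≤ |(b - a) i| := by
      rw [UnitAddCircle.norm_eq]
      have := round_le ((b - a) i) 0
      simpa using this
    rw [h5, norm_coe_of_le h (by rw [abs_of_nonneg h0]; exact h1), abs_of_nonneg h0] at h6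
    have h7 : |(b - a) i| = |(a - b) i| := by
      have : (b - a) i = - (a - b) i := by simp
      rw [this, abs_neg]
    rw [h7] at h6
    exact h6.trans h2
  apply le_antisymm
  · apply csInf_le ⟨h, hbd⟩
    refine ⟨0, h • e i, rfl, rfl, ?_⟩
    rw [zero_sub, norm_neg, norm_smul, norm_e, mul_one, Real.norm_eq_abs, abs_of_nonneg h0]
  · exact le_csInf ⟨‖(0 : Vec n) - h • e i‖, 0, h • e i, rfl, rfl, rfl⟩ hbd

theorem lipNorm_ge {n : ℕ} (i : Fin n) (m b b' : ℝ) (hm : 0 < m) (hm1 : m < 1)
    (v u : Torus n → ℝ) (hv : ∀ z, v z = U i m z + b) (hu : ∀ z, u z = U i 0 z + b') :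
    ENNReal.ofReal 1 ≤ lipNorm univ (fun x => D v x - D u x) := by
  -- the test points 0 and h e
  set h : ℝ := Real.arcsin m / Real.pi with hh
  have hpi := Real.pi_pos
  have hasin : 0 < Real.arcsin m := Real.arcsin_pos.2 hm
  have hasin2 : Real.arcsin m ≤ Real.pi / 2 := Real.arcsin_le_pi_div_two m
  have h0 : 0 < h := by positivity
  have h12 : h ≤ 1 / 2 := by
    rw [hh, div_le_iff₀ hpi]; linarith
  have hsin : Real.sin (Real.pi * h) = m := by
    have : Real.pi * h = Real.arcsin m := by rw [hh]; field_simp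
    rw [this, Real.sin_arcsin (by linarith) hm1.le]
  -- sin is concave: m ≥ 2 h
  have hbound : 2 * h ≤ m := by
    have h3 := Real.mul_le_sin (x := Real.pi * h) (by positivity) (by nlinarith)
    rw [hsin] at h3
    have h4 : 2 / Real.pi * (Real.pi * h) = 2 * h := by field_simp
    linarith
  have hne : proj (0 : Vec n) ≠ proj (h • e i) := by
    intro heq
    have h3 := torusDist_bounds i h h0.le h12
    have h4 := torusDist_bounds (n := n) i 0 le_rfl (by norm_num)
    rw [← heq] at h3
    rw [zero_smul] at h4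
    linarith
  have hR1 : R m 0 = m := by
    unfold R; simp [Real.sqrt_sq hm.le]
  have hR2 : R 0 0 = 0 := by unfold R; simp
  have hR3 : R 0 h = m := by
    unfold R; rw [hsin]; simp [Real.sqrt_sq hm.le]
  have hR4 : R m h ≤ (3 / 2) * m := by
    unfold R
    rw [hsin]
    apply Real.sqrt_le_iff.2 ⟨by positivity, by nlinarith⟩
  have hval : ‖(D v (0 : Vec n) - D u 0) - (D v (h • e i) - D u (h • e i))‖ ≥ m / 2 := by
    rw [D_of_eq i m b v hv, D_of_eq i 0 b' u hu, D_of_eq i m b v hv, D_of_eq i 0 b' u hu]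
    have h3 : (0 : Vec n) i = 0 := rfl
    have h4 : (h • e i : Vec n) i = h := by simp [e]
    rw [h3, h4, hR1, hR2, hR3, ← sub_smul, ← sub_smul, ← sub_smul, norm_smul, norm_e, mul_one,
      Real.norm_eq_abs]
    have h5 : m - M m - (0 - M 0) - (R m h - M m - (m - M 0)) = 2 * m - R m h := by ring
    rw [h5]
    refine le_trans ?_ (le_abs_self _)
    linarith
  have hratio : (1 : ℝ) ≤ ‖(D v (0 : Vec n) - D u 0) - (D v (h • e i) - D u (h • e i))‖ /
      torusDist (proj (0 : Vec n)) (proj (h • e i)) := by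
    rw [torusDist_bounds i h h0.le h12, le_div_iff₀ h0]
    linarith
  unfold lipNorm
  refine le_trans ?_ le_add_self
  refine le_iSup_of_le (0 : Vec n) (le_iSup_of_le (h • e i : Vec n) (le_iSup_of_le (mem_univ _)
    (le_iSup_of_le (mem_univ _) (le_iSup_of_le hne ?_))))
  exact ENNReal.ofReal_le_ofReal hratio

/-- Negative answer to Q1, in every dimension n ≥ 1.  There are a smooth Tonelli Hamiltonian H
on T^n × R^n, whose projected Aubry set for c = 0 is the whole torus, a viscosity solution u of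
H(x,Du) = α(0), unique up to an additive constant, and a sequence c_k → 0 in R^n such that every
viscosity solution v of H(x,Dv-c_k) = α(c_k) satisfies ‖Dv-Du‖_Lip ≥ 1 on the projected Aubry
set π(A_{c_k}) (and such solutions exist). -/
theorem result : ∀ n : ℕ, 1 ≤ n → ∃ (H : Torus n → Vec n → ℝ) (u : Torus n → ℝ) (α₀ : ℝ),
    IsTonelli H ∧
    IsCriticalValue (shift H 0) α₀ ∧
    aubry (shift H 0) α₀ = univ ∧
    IsSolution (shift H 0) α₀ u ∧
    (∀ w, IsSolution (shift H 0) α₀ w → ∃ b : ℝ, ∀ z, w z = u z + b) ∧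
    ∃ (c : ℕ → Vec n) (α : ℕ → ℝ) (ε : ℝ), 0 < ε ∧ Tendsto c atTop (𝓝 0) ∧
      ∀ k, IsCriticalValue (shift H (c k)) (α k) ∧
        (∃ v, IsSolution (shift H (c k)) (α k) v) ∧
        ∀ v, IsSolution (shift H (c k)) (α k) v →
          ENNReal.ofReal ε ≤
            lipNorm (aubry (shift H (c k)) (α k)) (fun x => D v x - D u x) := by
  intro n hn
  set i : Fin n := ⟨0, hn⟩ with hi
  have hs0 : shift (G i 0) 0 = G i 0 := by
    funext x p; simp [shift]
  refine ⟨G i 0, U i 0, 0 ^ 2 / 2, G_tonelli i 0, ?_, ?_, ?_, ?_, ?_⟩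
  · rw [hs0]; exact G_critical i 0
  · rw [hs0]; exact aubry_eq_univ i 0 le_rfl
  · rw [hs0]; exact U_solution i 0
  · intro w hw
    rw [hs0] at hw
    exact subsolution_unique i 0 w hw.1
  · set m : ℕ → ℝ := fun k => 1 / ((k : ℝ) + 2) with hm
    have hmpos : ∀ k, 0 < m k := fun k => by positivity
    have hm1 : ∀ k, m k < 1 := by
      intro k
      simp only [hm]
      rw [div_lt_one (by positivity)]
      have : (0 : ℝ) ≤ k := Nat.cast_nonneg k
      linarith
    have hm0 : Tendsto m atTop (𝓝 0) := by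
      have h1 : Tendsto (fun k : ℕ => (k : ℝ) + 2) atTop atTop :=
        tendsto_atTop_add_const_right _ _ tendsto_natCast_atTop_atTop
      exact tendsto_const_nhds.div_atTop h1
    refine ⟨fun k => cls i (m k), fun k => m k ^ 2 / 2, 1, one_pos, ?_, ?_⟩
    · rw [tendsto_zero_iff_norm_tendsto_zero]
      apply squeeze_zero (fun k => norm_nonneg _) _ hm0
      intro k
      unfold cls
      rw [norm_smul, norm_e, mul_one, Real.norm_eq_abs, abs_le]
      have h1 := M_mono le_rfl (hmpos k).le
      have h2 := M_lip le_rfl (hmpos k).le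
      constructor <;> linarith
    · intro k
      have hsk : shift (G i 0) (cls i (m k)) = G i (m k) := shift_G i (m k)
      simp only [hsk]
      refine ⟨G_critical i (m k), ⟨_, U_solution i (m k)⟩, ?_⟩
      intro v hv
      obtain ⟨b, hb⟩ := subsolution_unique i (m k) v hv.1
      rw [aubry_eq_univ i (m k) (hmpos k).le]
      exact lipNorm_ge i (m k) b 0 (hmpos k) (hm1 k) v (U i 0) hb (fun z => by simp)

end Pool.Agent.Results.MP_e5a79a_an.Pendulum
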